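import Pool.Agent.H87.LE.A08_W0
import Pool.Agent.H87.LE.A10_Xi
import Pool.Agent.H87.LE.A11c_Lim
import Pool.Agent.H87.LE.A12_Ineq
import Pool.Agent.H87.LE.A14_Int

/-!
# Asymptotics of `Theta` for functions on the plane (for B09b_Theta)
-/

open MeasureTheory Complex Set Filter Topology
open scoped ContDiff Laplacian

namespace Pool.Agent.H49.LE

open Pool.Agent.H87.LE

theorem ae_not_Mir : ∀ᵐ z : ℂ, z ∉ Mir := by
  have h : Mir ⊆ {z : ℂ | (1 : ℝ) * z.re + 0 * z.im = 0} ∪ {z : ℂ | (0 : ℝ) * z.re + 1 * z.im = 0} ∪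
      {z : ℂ | (1 : ℝ) * z.re + 1 * z.im = 0} ∪ {z : ℂ | (1 : ℝ) * z.re + (-1) * z.im = 0} := by
    intro z hz
    simp only [Mir, mem_ofPred_eq, mul_eq_zero] at hz
    simp only [mem_union, mem_ofPred_eq]
    rcases hz with (hz | hz) | hz
    · left; left; left; linarith
    · left; left; right; linarith
    · have h2 : (z.re + z.im) * (z.re - z.im) = 0 := by linarith
      rcases mul_eq_zero.mp h2 with h3 | h3
      · left; right; linarith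
      · right; linarith
  have h0 : volume Mir = 0 := by
    refine measure_mono_null h ?_
    rw [measure_union_null_iff, measure_union_null_iff, measure_union_null_iff]
    refine ⟨⟨⟨?_, ?_⟩, ?_⟩, ?_⟩
    · exact a11a_line 1 0 (by norm_num)
    · exact a11a_line 0 1 (by norm_num)
    · exact a11a_line 1 1 (by norm_num)
    · exact a11a_line 1 (-1) (by norm_num)
  exact measure_eq_zero_iff_ae_notMem.mp h0

theorem im_pow_four (z : ℂ) : (z ^ 4).im = 4 * (z.re * z.im * (z.re ^ 2 - z.im ^ 2)) := by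
  have h : z ^ 4 = (z * z) * (z * z) := by ring
  rw [h]
  simp only [Complex.mul_im, Complex.mul_re]
  ring

theorem hh_pos {z : ℂ} (hz : z ∉ Mir) : 0 < hh z := by
  unfold hh
  rw [im_pow_four]
  have : z.re * z.im * (z.re ^ 2 - z.im ^ 2) ≠ 0 := hz
  positivity

theorem hh_scale {b : ℝ} (hb : 0 < b) (z : ℂ) : hh z = b ^ 4 * hh (z / b) := by
  unfold hh
  have h1 : z ^ 4 = ((b ^ 4 : ℝ) : ℂ) * (z / b) ^ 4 := by
    have : (b : ℂ) ≠ 0 := by exact_mod_cast hb.ne'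
    push_cast
    field_simp
  rw [h1, Complex.im_ofReal_mul, abs_mul, abs_of_pos (by positivity : (0 : ℝ) < b ^ 4)]

theorem Mq_neg (q α β : ℝ) : Mq q (-α) β = Mq q α β := by
  unfold Mq
  have h1 : |-α + β| = |α - β| := by rw [← abs_neg]; congr 1; ring
  have h2 : |-α - β| = |α + β| := by rw [← abs_neg]; congr 1; ring
  rw [h1, h2, abs_neg]
  ring

theorem Mq_abs (q α β : ℝ) : Mq q |α| β = Mq q α β := by
  rcases abs_choice α with h | h
  · rw [h]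
  · rw [h, Mq_neg]

theorem Mq_measurable (q : ℝ) : Measurable (fun p : ℝ × ℝ => Mq q p.1 p.2) := by
  have := Mq_meas q 1
  simpa [Function.uncurry_def] using this

/-- closeness to the harmonic polynomial -/
theorem inner_pt {C₀ : ℝ} (hC₀ : 0 < C₀) (h0 : ∀ z : ℂ, ‖z‖ ≤ 1 / 2 →
    |w0 z - Real.pi ^ 4 / 4 * (z ^ 4).im| ≤ C₀ * ‖z‖ ^ 2 * hh z)
    {δ : ℝ} (hδ : 0 < δ) (hδ' : δ ≤ 1 / 4) {z : ℂ} (hz : ‖z‖ ≤ δ) {U : ℝ}
    (hU : |U - w0 z| ≤ δ * |w0 z|) :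
    |U - Real.pi ^ 4 / 4 * (z ^ 4).im| ≤
      (1 + 2 * C₀ / (Real.pi ^ 4 / 4)) * δ * |Real.pi ^ 4 / 4 * (z ^ 4).im| := by
  have hκ : 0 < Real.pi ^ 4 / 4 := by positivity
  set κ := Real.pi ^ 4 / 4
  have e1 : |κ * (z ^ 4).im| = κ * hh z := by
    rw [abs_mul, abs_of_pos hκ]; rfl
  have hh0 : 0 ≤ hh z := abs_nonneg _
  have hn : ‖z‖ ^ 2 ≤ δ := by nlinarith [norm_nonneg z]
  have h1 : |w0 z - κ * (z ^ 4).im| ≤ C₀ * δ * hh z := by
    refine (h0 z (by linarith)).trans ?_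
    gcongr
  have h2 : |w0 z| ≤ κ * hh z + C₀ * hh z := by
    have h3 : |w0 z| ≤ |w0 z - κ * (z ^ 4).im| + |κ * (z ^ 4).im| := by
      have := abs_add_le (w0 z - κ * (z ^ 4).im) (κ * (z ^ 4).im)
      simpa using this
    have h4 : C₀ * δ * hh z ≤ C₀ * hh z := by
      have : C₀ * hh z * δ ≤ C₀ * hh z * 1 := by gcongr; linarith
      linarith
    rw [e1] at h3
    linarith
  rw [e1]
  have h5 : |U - κ * (z ^ 4).im| ≤ |U - w0 z| + |w0 z - κ * (z ^ 4).im| := abs_sub_le _ _ _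
  have h6 : δ * |w0 z| ≤ δ * (κ * hh z + C₀ * hh z) := by gcongr
  have h7 : (1 + 2 * C₀ / κ) * δ * (κ * hh z) = δ * (κ * hh z + C₀ * hh z) + C₀ * δ * hh z := by
    field_simp
    ring
  rw [h7]
  linarith

theorem min_le_rpow {y q : ℝ} (hy : 0 ≤ y) (h2 : 2 < q) (h3 : q ≤ 21 / 10) :
    min (y ^ 4) (y ^ (5 / 2 : ℝ)) ≤ y ^ (q + 3 / 4) := by
  rcases le_total y 1 with h | h
  · refine (min_le_left _ _).trans ?_
    rw [← Real.rpow_natCast y 4]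
    exact Real.rpow_le_rpow_of_exponent_ge' hy h (by linarith) (by norm_num; linarith)
  · refine (min_le_right _ _).trans ?_
    exact Real.rpow_le_rpow_of_exponent_le h (by linarith)

theorem outer_pt {q α β : ℝ} (h2 : 2 < q) (h3 : q ≤ 21 / 10) (hα : α ≠ 0) :
    |α| ^ q * min (|β / α| ^ 4) (|β / α| ^ (5 / 2 : ℝ)) ≤ |α| ^ (-(3 / 4) : ℝ) * |β| ^ (q + 3 / 4) := by
  have ha : 0 < |α| := abs_pos.mpr hα
  calc |α| ^ q * min (|β / α| ^ 4) (|β / α| ^ (5 / 2 : ℝ))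
      ≤ |α| ^ q * |β / α| ^ (q + 3 / 4) :=
        mul_le_mul_of_nonneg_left (min_le_rpow (abs_nonneg _) h2 h3) (by positivity)
    _ = |α| ^ (-(3 / 4) : ℝ) * |β| ^ (q + 3 / 4) := by
        rw [abs_div, Real.div_rpow (abs_nonneg _) (abs_nonneg _)]
        have : |α| ^ q = |α| ^ (-(3 / 4) : ℝ) * |α| ^ (q + 3 / 4) := by
          rw [← Real.rpow_add ha]; congr 1; ring
        rw [this]
        have h5 : |α| ^ (q + 3 / 4) ≠ 0 := (Real.rpow_pos_of_pos ha _).ne'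
        field_simp

theorem bet_nonneg' {z : ℂ} (hz : z ∈ DD) : 0 ≤ bet z ∧ bet z ≤ 1 := by
  have h1 := cos_half_pos (abs_lt.mp hz.1).1 (abs_lt.mp hz.1).2
  have h2 := cos_half_pos (abs_lt.mp hz.2).1 (abs_lt.mp hz.2).2
  have h3 := Real.cos_le_one (Real.pi / 2 * z.re)
  have h4 := Real.cos_le_one (Real.pi / 2 * z.im)
  unfold bet
  constructor
  · positivity
  · exact mul_le_one₀ h3 h2.le h4

theorem outer_bd {q U s V C₁ : ℝ} (h2 : 2 < q) (h3 : q ≤ 21 / 10) {z : ℂ} (hz : z ∈ DD)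
    (hw : w0 z ≠ 0) {δ : ℝ} (hδ' : δ ≤ 1 / 4) (hU : |U - w0 z| ≤ δ * |w0 z|)
    (hs : 0 ≤ s) (hV : |V| ≤ C₁ * bet z ^ (3 / 4 : ℝ)) :
    U ≠ 0 ∧ |U| ^ q * min (|(s * V) / U| ^ 4) (|(s * V) / U| ^ (5 / 2 : ℝ)) ≤
      (3 / 4 : ℝ) ^ (-(3 / 4) : ℝ) * (s * |C₁|) ^ (q + 3 / 4) *
        (bet z ^ 2 * |w0 z| ^ (-(3 / 4) : ℝ)) := by
  have hw' : 0 < |w0 z| := abs_pos.mpr hw
  have h4 : 3 / 4 * |w0 z| ≤ |U| := by
    have h5 : |w0 z| ≤ |U| + |U - w0 z| := by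
      have := abs_sub_le (w0 z) U 0
      simp only [sub_zero] at this
      rw [abs_sub_comm] at this
      linarith
    nlinarith
  have hU0 : U ≠ 0 := by
    intro h; rw [h, abs_zero] at h4; linarith
  refine ⟨hU0, (outer_pt h2 h3 hU0).trans ?_⟩
  obtain ⟨hb0, hb1⟩ := bet_nonneg' hz
  have h6 : |U| ^ (-(3 / 4) : ℝ) ≤ (3 / 4 : ℝ) ^ (-(3 / 4) : ℝ) * |w0 z| ^ (-(3 / 4) : ℝ) := by
    rw [← Real.mul_rpow (by norm_num) (abs_nonneg _)]
    exact Real.rpow_le_rpow_of_nonpos (by positivity) h4 (by norm_num)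
  have h7 : |s * V| ≤ s * |C₁| * bet z ^ (3 / 4 : ℝ) := by
    rw [abs_mul, abs_of_nonneg hs, mul_assoc]
    refine mul_le_mul_of_nonneg_left (hV.trans ?_) hs
    exact mul_le_mul_of_nonneg_right (le_abs_self _) (Real.rpow_nonneg hb0 _)
  have h8 : |s * V| ^ (q + 3 / 4) ≤ (s * |C₁|) ^ (q + 3 / 4) * bet z ^ 2 := by
    calc |s * V| ^ (q + 3 / 4) ≤ (s * |C₁| * bet z ^ (3 / 4 : ℝ)) ^ (q + 3 / 4) :=
          Real.rpow_le_rpow (abs_nonneg _) h7 (by linarith)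
      _ = (s * |C₁|) ^ (q + 3 / 4) * (bet z ^ (3 / 4 : ℝ)) ^ (q + 3 / 4) :=
          Real.mul_rpow (by positivity) (Real.rpow_nonneg hb0 _)
      _ ≤ _ := by
          refine mul_le_mul_of_nonneg_left ?_ (by positivity)
          rw [← Real.rpow_mul hb0, ← Real.rpow_natCast (bet z) 2]
          exact Real.rpow_le_rpow_of_exponent_ge' hb0 hb1 (by norm_num) (by push_cast; linarith)
  calc |U| ^ (-(3 / 4) : ℝ) * |s * V| ^ (q + 3 / 4)
      ≤ ((3 / 4 : ℝ) ^ (-(3 / 4) : ℝ) * |w0 z| ^ (-(3 / 4) : ℝ)) *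
          ((s * |C₁|) ^ (q + 3 / 4) * bet z ^ 2) := by
        apply mul_le_mul h6 h8 (by positivity) (by positivity)
    _ = _ := by ring

end Pool.Agent.H49.LE
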