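import Pool.Agent.H49.LE.Theta1

/-!
# Asymptotics of `Theta`: the estimate for one value of `b`
-/

open MeasureTheory Complex Set Filter Topology
open scoped ContDiff Laplacian

namespace Pool.Agent.H49.LE

open Pool.Agent.H87.LE

theorem div_eq_smul {b : ℝ} (z : ℂ) : z / (b : ℂ) = (b⁻¹ : ℝ) • z := by
  rw [Complex.real_smul, Complex.ofReal_inv, div_eq_inv_mul]

theorem scale_integrable {F : ℂ → ℝ} (hF : Integrable F) {b : ℝ} (hb : 0 < b) :
    Integrable (fun z : ℂ => F (z / b)) := by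
  have := hF.comp_smul (R := b⁻¹) (inv_ne_zero hb.ne')
  simpa only [div_eq_smul] using this

theorem scale_integral (F : ℂ → ℝ) {b : ℝ} (hb : 0 < b) :
    ∫ z : ℂ, F (z / b) = b ^ 2 * ∫ z, F z := by
  have h := Measure.integral_comp_inv_smul_of_nonneg (volume : Measure ℂ) F hb.le
  rw [Complex.finrank_real_complex, smul_eq_mul] at h
  rw [← h]
  congr 1
  ext z
  rw [div_eq_smul]

theorem scale_setIntegral (F : ℂ → ℝ) {b a : ℝ} (hb : 0 < b) (ha : 0 ≤ a) :
    ∫ z in Metric.closedBall (0 : ℂ) a, F (z / b) =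
      b ^ 2 * ∫ z in Metric.closedBall (0 : ℂ) (a / b), F z := by
  have h := Measure.setIntegral_comp_smul_of_pos (volume : Measure ℂ) F
    (Metric.closedBall (0 : ℂ) a) (inv_pos.mpr hb)
  rw [Complex.finrank_real_complex, smul_eq_mul, smul_closedBall _ _ ha, smul_zero,
    Real.norm_of_nonneg (inv_pos.mpr hb).le] at h
  rw [div_eq_inv_mul a b, ← inv_pow, inv_inv] at *
  rw [← h]
  congr 1
  ext z
  rw [div_eq_smul]

theorem maj_meas (q x : ℝ) : Measurable (maj q x) := by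
  have h1 : Measurable fun z : ℂ => x * xi z / hh z :=
    (a11a_xi_meas.const_mul x).div a11a_hh_meas
  unfold maj
  exact (a11a_hh_meas.pow_const q).mul ((h1.pow_const 4).min (h1.pow_const _))

theorem xi_nonneg (z : ℂ) : 0 ≤ xi z := by
  have := xib_nonneg 1 z
  simpa [xib] using this

theorem maj_nonneg {q x : ℝ} (hx : 0 < x) (z : ℂ) : 0 ≤ maj q x z := by
  have h0 : 0 ≤ hh z := abs_nonneg _
  have h1 : 0 ≤ x * xi z / hh z := div_nonneg (mul_nonneg hx.le (xi_nonneg z)) h0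
  unfold maj
  exact mul_nonneg (Real.rpow_nonneg h0 _) (le_min (pow_nonneg h1 4) (Real.rpow_nonneg h1 _))

theorem closedBall_sub_DD {a : ℝ} (ha : a ≤ 1 / 4) : Metric.closedBall (0 : ℂ) a ⊆ DD := by
  intro z hz
  rw [mem_closedBall_zero_iff] at hz
  exact ⟨(Complex.abs_re_le_norm z).trans_lt (by linarith),
    (Complex.abs_im_le_norm z).trans_lt (by linarith)⟩

theorem hh_eq_zero_of_Mir {z : ℂ} (hz : z ∈ Mir) : hh z = 0 := by
  unfold hh
  rw [im_pow_four]
  have : z.re * z.im * (z.re ^ 2 - z.im ^ 2) = 0 := hz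
  rw [this]; simp

theorem theta_one {x q : ℝ} (hx : 0 < x) (h2 : 2 < q) (h3 : q ≤ 21 / 10) {Cp Cb C₀ : ℝ}
    (hCp0 : 0 < Cp) (hCb0 : 0 < Cb)
    (hCp : ∀ q α β α' β' δ : ℝ, 2 < q → q ≤ 21 / 10 → α ≠ 0 →
      0 ≤ δ → δ ≤ 1 / 2 → |α' - α| ≤ δ * |α| → |β' - β| ≤ δ * |β| →
      |Mq q α' β' - Mq q α β| ≤
        Cp * (q - 2) * δ * (|α| ^ q * min (|β / α| ^ 4) (|β / α| ^ (5 / 2 : ℝ))))
    (hCb : ∀ q α β : ℝ, 2 < q → q ≤ 21 / 10 → α ≠ 0 →
      |Mq q α β| ≤ Cb * (q - 2) * (|α| ^ q * min (|β / α| ^ 4) (|β / α| ^ (5 / 2 : ℝ))))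
    (hC₀ : 0 < C₀) (h0 : ∀ z : ℂ, ‖z‖ ≤ 1 / 2 →
      |w0 z - Real.pi ^ 4 / 4 * (z ^ 4).im| ≤ C₀ * ‖z‖ ^ 2 * hh z)
    {δ₁ : ℝ} (hδ : 0 < δ₁) (hδ' : δ₁ ≤ 1 / 4) (hK : (1 + 2 * C₀ / (Real.pi ^ 4 / 4)) * δ₁ ≤ 1 / 2)
    {U V : ℂ → ℝ} (hUm : AEStronglyMeasurable U volume) (hVm : AEStronglyMeasurable V volume)
    (hU : ∀ᵐ z, z ∈ DD → |U z - w0 z| ≤ δ₁ * |w0 z|)
    (hF : Integrable (fun z : ℂ => Mq q (hh z) (x * xi z))) (hm : Integrable (maj q x))
    {a' b A C₁ : ℝ} (ha : 0 < a') (ha' : a' ≤ δ₁) (hb : 0 < b) (hA : 0 < A)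
    (hV : ∀ᵐ z, z ∈ DD → |V z| ≤ C₁ * bet z ^ (3 / 4 : ℝ))
    (hV' : ∀ᵐ z : ℂ, ‖z‖ ≤ a' → |V z - A * xib b z| ≤ δ₁ * (A * xib b z)) :
    |(∫ z in DD, Mq q (U z) ((x * (Real.pi ^ 4 / 4) * b ^ 4 / A) * V z)) -
      (Real.pi ^ 4 / 4 * b ^ 4) ^ q * (b ^ 2 *
        ∫ z in Metric.closedBall (0 : ℂ) (a' / b), Mq q (hh z) (x * xi z))| ≤
      Cp * (q - 2) * ((1 + 2 * C₀ / (Real.pi ^ 4 / 4)) * δ₁) *
        ((Real.pi ^ 4 / 4 * b ^ 4) ^ q * (b ^ 2 * ∫ z, maj q x z)) +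
      Cb * (q - 2) * ((3 / 4 : ℝ) ^ (-(3 / 4) : ℝ) *
        ((x * (Real.pi ^ 4 / 4) * b ^ 4 / A) * |C₁|) ^ (q + 3 / 4)) *
        ∫ z in DD \ Metric.ball (0 : ℂ) a', bet z ^ 2 * |w0 z| ^ (-(3 / 4) : ℝ) := by
  have hκ : 0 < Real.pi ^ 4 / 4 := by positivity
  set κ := Real.pi ^ 4 / 4
  set s := x * κ * b ^ 4 / A with hs
  have hs0 : 0 < s := by positivity
  set K := 1 + 2 * C₀ / κ with hKdef
  have hK1 : 1 ≤ K := by
    have : 0 < 2 * C₀ / κ := by positivity
    linarith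
  set B := Metric.closedBall (0 : ℂ) a' with hBdef
  have hBm : MeasurableSet B := Metric.isClosed_closedBall.measurableSet
  have hBD : B ⊆ DD := closedBall_sub_DD (ha'.trans hδ')
  set F : ℂ → ℝ := fun z => Mq q (hh z) (x * xi z) with hFdef
  set G : ℂ → ℝ := fun z => Mq q (U z) (s * V z) with hGdef
  set k : ℝ := (κ * b ^ 4) ^ q with hkdef
  have hk0 : 0 < k := Real.rpow_pos_of_pos (by positivity) _
  have hGm : AEStronglyMeasurable G volume := by
    have h1 : AEMeasurable (fun z => (U z, s * V z)) volume :=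
      hUm.aemeasurable.prodMk (hVm.aemeasurable.const_mul s)
    exact ((Mq_measurable q).comp_aemeasurable h1).aestronglyMeasurable
  -- inner estimate
  have hin : ∀ᵐ z, z ∈ B → |G z - k * F (z / b)| ≤
      Cp * (q - 2) * (K * δ₁) * (k * maj q x (z / b)) := by
    filter_upwards [hU, hV', ae_not_Mir] with z h4 h5 h6 hz
    have hz' : ‖z‖ ≤ a' := mem_closedBall_zero_iff.mp hz
    have h7 := inner_pt hC₀ h0 hδ hδ' (hz'.trans ha') (h4 (hBD hz))
    have hhz : 0 < hh z := hh_pos h6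
    have hhb : 0 < hh (z / b) := by
      have := hh_scale hb z
      rw [this] at hhz
      exact (mul_pos_iff_of_pos_left (by positivity)).mp hhz
    have him : (z ^ 4).im ≠ 0 := by
      intro h; unfold hh at hhz; rw [h, abs_zero] at hhz; exact lt_irrefl _ hhz
    have hα : κ * (z ^ 4).im ≠ 0 := mul_ne_zero hκ.ne' him
    have hxi : 0 ≤ xib b z := xib_nonneg b z
    have h8 := h5 hz'
    have hβ : |s * V z - x * κ * b ^ 4 * xib b z| ≤ K * δ₁ * |x * κ * b ^ 4 * xib b z| := by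
      have e1 : x * κ * b ^ 4 * xib b z = s * (A * xib b z) := by
        rw [hs]; field_simp
      rw [abs_of_nonneg (by positivity : 0 ≤ x * κ * b ^ 4 * xib b z), e1, ← mul_sub, abs_mul,
        abs_of_pos hs0]
      calc s * |V z - A * xib b z| ≤ s * (δ₁ * (A * xib b z)) := by gcongr
        _ = 1 * δ₁ * (s * (A * xib b z)) := by ring
        _ ≤ K * δ₁ * (s * (A * xib b z)) := by gcongr
    have h9 := hCp q (κ * (z ^ 4).im) (x * κ * b ^ 4 * xib b z) (U z) (s * V z) (K * δ₁) h2 h3 hα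
      (by positivity) hK h7 hβ
    have e2 : |κ * (z ^ 4).im| = κ * b ^ 4 * hh (z / b) := by
      rw [abs_mul, abs_of_pos hκ, mul_assoc, ← hh_scale hb z]; rfl
    have e3 : Mq q (κ * (z ^ 4).im) (x * κ * b ^ 4 * xib b z) = k * F (z / b) := by
      rw [← Mq_abs, e2]
      have : x * κ * b ^ 4 * xib b z = κ * b ^ 4 * (x * xi (z / b)) := by unfold xib; ring
      rw [this, Mq_scale _ _ _ _ (by positivity)]
    have e4 : |κ * (z ^ 4).im| ^ q * min (|x * κ * b ^ 4 * xib b z / (κ * (z ^ 4).im)| ^ 4)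
        (|x * κ * b ^ 4 * xib b z / (κ * (z ^ 4).im)| ^ (5 / 2 : ℝ)) = k * maj q x (z / b) := by
      have e5 : |x * κ * b ^ 4 * xib b z / (κ * (z ^ 4).im)| = x * xi (z / b) / hh (z / b) := by
        rw [abs_div, e2, abs_of_nonneg (by positivity)]
        unfold xib
        field_simp
      rw [e5, e2, Real.mul_rpow (by positivity) hhb.le]
      unfold maj
      ring
    rw [e3, e4] at h9
    exact h9
  -- outer estimate
  have hout : ∀ᵐ z, z ∈ DD \ B → |G z| ≤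
      Cb * (q - 2) * ((3 / 4 : ℝ) ^ (-(3 / 4) : ℝ) * (s * |C₁|) ^ (q + 3 / 4)) *
        (bet z ^ 2 * |w0 z| ^ (-(3 / 4) : ℝ)) := by
    filter_upwards [hU, hV, ae_not_Mir] with z h4 h5 h6 hz
    have hw : w0 z ≠ 0 := fun h => h6 ((w0_eq_zero_iff hz.1).mp h)
    obtain ⟨h7, h8⟩ := outer_bd h2 h3 hz.1 hw hδ' (h4 hz.1) hs0.le (h5 hz.1)
    have h9 := hCb q (U z) (s * V z) h2 h3 h7
    refine h9.trans ?_
    have h10 : 0 ≤ Cb * (q - 2) := mul_nonneg hCb0.le (by linarith)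
    calc Cb * (q - 2) * (|U z| ^ q * min (|s * V z / U z| ^ 4) (|s * V z / U z| ^ (5 / 2 : ℝ)))
        ≤ Cb * (q - 2) * ((3 / 4 : ℝ) ^ (-(3 / 4) : ℝ) * (s * |C₁|) ^ (q + 3 / 4) *
          (bet z ^ 2 * |w0 z| ^ (-(3 / 4) : ℝ))) := mul_le_mul_of_nonneg_left h8 h10
      _ = _ := by ring
  -- integrability
  have hFb : Integrable (fun z : ℂ => F (z / b)) := scale_integrable hF hb
  have hmb : Integrable (fun z : ℂ => maj q x (z / b)) := scale_integrable hm hb
  have hEi : Integrable (fun z : ℂ => Cp * (q - 2) * (K * δ₁) * (k * maj q x (z / b))) :=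
    (hmb.const_mul k).const_mul _
  have hG0i : Integrable (fun z : ℂ => k * F (z / b)) := hFb.const_mul k
  have hw2 : IntegrableOn (fun z => bet z ^ 2 * |w0 z| ^ (-(3 / 4) : ℝ)) (DD \ B) :=
    (w0_int2 ha).mono_set (sdiff_subset_sdiff_right Metric.ball_subset_closedBall)
  have hGB' : IntegrableOn (fun z => G z - k * F (z / b)) B := by
    refine Integrable.mono' hEi.integrableOn (hGm.sub hG0i.aestronglyMeasurable).restrict ?_
    rw [ae_restrict_iff' hBm]
    exact hin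
  have hGB : IntegrableOn G B := by
    have := hGB'.add (hG0i.integrableOn (s := B))
    refine this.congr (Eventually.of_forall fun z => ?_)
    simp
  have hDm : MeasurableSet (DD \ B) := measurableSet_DD.diff hBm
  have hGD : IntegrableOn G (DD \ B) := by
    refine Integrable.mono' (hw2.const_mul
      (Cb * (q - 2) * ((3 / 4 : ℝ) ^ (-(3 / 4) : ℝ) * (s * |C₁|) ^ (q + 3 / 4)))) hGm.restrict ?_
    rw [ae_restrict_iff' hDm]
    exact hout
  have hGall : IntegrableOn G DD := by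
    have := hGB.union hGD
    rwa [union_sdiff_cancel hBD] at this
  -- splitting
  have hsplit : ∫ z in DD, G z = (∫ z in B, G z) + ∫ z in DD \ B, G z := by
    rw [← integral_inter_add_sdiff hBm hGall, inter_eq_self_of_subset_right hBD]
  have hB1 : ∫ z in B, G z = (∫ z in B, (G z - k * F (z / b))) + ∫ z in B, k * F (z / b) := by
    rw [← integral_add hGB' hG0i.integrableOn]
    refine integral_congr_ae (Eventually.of_forall fun z => ?_)
    simp
  have hB2 : ∫ z in B, k * F (z / b) =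
      k * (b ^ 2 * ∫ z in Metric.closedBall (0 : ℂ) (a' / b), F z) := by
    rw [integral_const_mul, scale_setIntegral F hb ha.le]
  have hB3 : |∫ z in B, (G z - k * F (z / b))| ≤
      Cp * (q - 2) * (K * δ₁) * (k * (b ^ 2 * ∫ z, maj q x z)) := by
    have h4 : ‖∫ z in B, (G z - k * F (z / b))‖ ≤
        ∫ z in B, Cp * (q - 2) * (K * δ₁) * (k * maj q x (z / b)) := by
      refine norm_integral_le_of_norm_le hEi.integrableOn ?_
      rw [ae_restrict_iff' hBm]
      exact hin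
    refine h4.trans ?_
    have h10 : 0 ≤ Cp * (q - 2) := mul_nonneg hCp0.le (by linarith)
    calc ∫ z in B, Cp * (q - 2) * (K * δ₁) * (k * maj q x (z / b))
        ≤ ∫ z, Cp * (q - 2) * (K * δ₁) * (k * maj q x (z / b)) := by
          refine setIntegral_le_integral hEi (Eventually.of_forall fun z => ?_)
          have := maj_nonneg (q := q) hx (z / b)
          simp only [Pi.zero_apply]
          positivity
      _ = _ := by
          rw [integral_const_mul, integral_const_mul, scale_integral (maj q x) hb]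
  have hB4 : |∫ z in DD \ B, G z| ≤
      Cb * (q - 2) * ((3 / 4 : ℝ) ^ (-(3 / 4) : ℝ) * (s * |C₁|) ^ (q + 3 / 4)) *
        ∫ z in DD \ Metric.ball (0 : ℂ) a', bet z ^ 2 * |w0 z| ^ (-(3 / 4) : ℝ) := by
    have h4 : ‖∫ z in DD \ B, G z‖ ≤ ∫ z in DD \ B,
        Cb * (q - 2) * ((3 / 4 : ℝ) ^ (-(3 / 4) : ℝ) * (s * |C₁|) ^ (q + 3 / 4)) *
        (bet z ^ 2 * |w0 z| ^ (-(3 / 4) : ℝ)) := by
      refine norm_integral_le_of_norm_le (hw2.const_mul _) ?_
      rw [ae_restrict_iff' hDm]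
      exact hout
    refine h4.trans ?_
    have h10 : 0 ≤ Cb * (q - 2) := mul_nonneg hCb0.le (by linarith)
    rw [integral_const_mul]
    refine mul_le_mul_of_nonneg_left ?_ (by positivity)
    refine setIntegral_mono_set (w0_int2 ha) (Eventually.of_forall fun z => ?_)
      (LE.le.eventuallyLE (sdiff_subset_sdiff_right Metric.ball_subset_closedBall))
    simp only [Pi.zero_apply]
    positivity
  rw [hsplit, hB1, hB2]
  have e6 : (∫ z in B, (G z - k * F (z / b))) +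
      k * (b ^ 2 * ∫ z in Metric.closedBall (0 : ℂ) (a' / b), F z) + (∫ z in DD \ B, G z) -
      k * (b ^ 2 * ∫ z in Metric.closedBall (0 : ℂ) (a' / b), F z) =
      (∫ z in B, (G z - k * F (z / b))) + ∫ z in DD \ B, G z := by ring
  rw [e6]
  exact (abs_add_le _ _).trans (add_le_add hB3 hB4)

end Pool.Agent.H49.LE
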