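import Pool.Agent.H49.LE.Theta2

/-!
# Asymptotics of `Theta`: the limit
-/

open MeasureTheory Complex Set Filter Topology
open scoped ContDiff Laplacian

namespace Pool.Agent.H49.LE

open Pool.Agent.H87.LE

theorem pow_small {q x κ c C₁ : ℝ} (h2 : 2 < q) (h3 : q ≤ 21 / 10) (hx : 0 < x) (hκ : 0 < κ)
    (hc : 0 < c) {b A : ℕ → ℝ} (hb : ∀ n, 0 < b n) (hb0 : Tendsto b atTop (𝓝 0))
    (hA : ∀ n, c / Real.log (1 / b n) ≤ A n ∧ 0 < A n) {ε : ℝ} (hε : 0 < ε) :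
    ∀ᶠ n in atTop, ((x * κ * b n ^ 4 / A n) * |C₁|) ^ (q + 3 / 4) ≤
      ε * ((κ * b n ^ 4) ^ q * b n ^ 2) := by
  set M := x * κ / c * 20 * |C₁| with hM
  have hM0 : 0 ≤ M := by positivity
  set e := (79 / 20) * (q + 3 / 4) - (4 * q + 2) with he
  have he0 : 0 < e := by rw [he]; linarith
  have h1 : Tendsto (fun n => M ^ (q + 3 / 4) * b n ^ e) atTop (𝓝 (M ^ (q + 3 / 4) * 0)) := by
    refine Tendsto.const_mul _ ?_
    have := hb0.rpow_const (p := e) (Or.inr he0.le)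
    rwa [Real.zero_rpow he0.ne'] at this
  rw [mul_zero] at h1
  have h4 : 0 < ε * κ ^ q := mul_pos hε (Real.rpow_pos_of_pos hκ _)
  filter_upwards [h1.eventually (gt_mem_nhds h4), hb0.eventually (gt_mem_nhds one_pos)] with n h5 h6
  have hbn := hb n
  obtain ⟨hAn, hAn0⟩ := hA n
  have hlog : 0 < Real.log (1 / b n) := Real.log_pos (by rw [lt_div_iff₀ hbn]; linarith)
  have hlog2 : Real.log (1 / b n) ≤ 20 * b n ^ (-(1 / 20) : ℝ) := by
    have h7 := Real.log_le_rpow_div (x := 1 / b n) (ε := 1 / 20) (by positivity) (by norm_num)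
    have h8 : (1 / b n) ^ (1 / 20 : ℝ) = b n ^ (-(1 / 20) : ℝ) := by
      rw [one_div, Real.inv_rpow hbn.le, ← Real.rpow_neg hbn.le]
    rw [h8] at h7
    linarith
  have hs : x * κ * b n ^ 4 / A n * |C₁| ≤ M * b n ^ (79 / 20 : ℝ) := by
    have h9 : 1 / A n ≤ Real.log (1 / b n) / c := by
      rw [div_le_div_iff₀ hAn0 hc]
      rw [div_le_iff₀ hlog] at hAn
      linarith
    have h10 : b n ^ (79 / 20 : ℝ) = b n ^ 4 * b n ^ (-(1 / 20) : ℝ) := by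
      rw [← Real.rpow_natCast (b n) 4, ← Real.rpow_add hbn]; congr 1; norm_num
    calc x * κ * b n ^ 4 / A n * |C₁| = x * κ * b n ^ 4 * (1 / A n) * |C₁| := by ring
      _ ≤ x * κ * b n ^ 4 * (Real.log (1 / b n) / c) * |C₁| := by gcongr
      _ ≤ x * κ * b n ^ 4 * ((20 * b n ^ (-(1 / 20) : ℝ)) / c) * |C₁| := by gcongr
      _ = M * b n ^ (79 / 20 : ℝ) := by rw [h10, hM]; ring
  calc ((x * κ * b n ^ 4 / A n) * |C₁|) ^ (q + 3 / 4)
      ≤ (M * b n ^ (79 / 20 : ℝ)) ^ (q + 3 / 4) :=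
        Real.rpow_le_rpow (by positivity) hs (by linarith)
    _ = M ^ (q + 3 / 4) * b n ^ e * b n ^ (4 * q + 2) := by
        rw [Real.mul_rpow hM0 (by positivity), ← Real.rpow_mul hbn.le, mul_assoc,
          ← Real.rpow_add hbn, he]
        congr 2
        ring
    _ ≤ ε * κ ^ q * b n ^ (4 * q + 2) := by gcongr
    _ = ε * ((κ * b n ^ 4) ^ q * b n ^ 2) := by
        rw [Real.mul_rpow hκ.le (by positivity), ← Real.rpow_natCast (b n) 4,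
          ← Real.rpow_natCast (b n) 2, ← Real.rpow_mul hbn.le, mul_assoc, mul_assoc,
          ← Real.rpow_add hbn]
        norm_num

theorem theta_core {x : ℝ} (hx : 0 < x) {μ : ℝ} (hμ : 0 < μ) : ∃ δ₁ : ℝ, 0 < δ₁ ∧ δ₁ ≤ 1 / 4 ∧
    ∀ {q : ℝ} {U : ℂ → ℝ}, 2 < q → q ≤ 21 / 10 → AEStronglyMeasurable U volume →
      (∀ᵐ z, z ∈ DD → |U z - w0 z| ≤ δ₁ * |w0 z|) →
      Integrable (fun z : ℂ => Mq q (hh z) (x * xi z)) →
      ∀ (a' c C C₁ : ℝ) (b A : ℕ → ℝ) (v : ℕ → ℂ → ℝ),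
      (∀ n, AEStronglyMeasurable (v n) volume) → 0 < a' → a' ≤ δ₁ → 0 < c →
      (∀ n, 0 < b n) → Tendsto b atTop (𝓝 0) →
      (∀ n, c / Real.log (1 / b n) ≤ A n ∧ A n ≤ C ∧ 0 < A n) →
      (∀ n, ∀ᵐ z, z ∈ DD → |v n z| ≤ C₁ * bet z ^ (3 / 4 : ℝ)) →
      (∀ n, ∀ᵐ z : ℂ, ‖z‖ ≤ a' →
        |v n z - A n * xib (b n) z| ≤ δ₁ * (A n * xib (b n) z)) →
      ∀ᶠ n in atTop,
        |(∫ z in DD, Mq q (U z) ((x * (Real.pi ^ 4 / 4) * b n ^ 4 / A n) * v n z)) -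
          (Real.pi ^ 4 / 4 * b n ^ 4) ^ q * b n ^ 2 * Th q x| ≤
            (Real.pi ^ 4 / 4 * b n ^ 4) ^ q * b n ^ 2 * (μ * (q - 2)) := by
  obtain ⟨Cp, hCp0, hCp⟩ := Mq_pert
  obtain ⟨Cb, hCb0, hCb⟩ := Mq_bound
  obtain ⟨C₀, hC₀, h0⟩ := w0_near_zero
  obtain ⟨Cm', hCm'⟩ := maj_int x hx
  set Cm := max Cm' 1 with hCmdef
  have hCm0 : 0 < Cm := lt_max_of_lt_right one_pos
  have hκ : 0 < Real.pi ^ 4 / 4 := by positivity
  set κ := Real.pi ^ 4 / 4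
  set K := 1 + 2 * C₀ / κ with hKdef
  have hK0 : 0 < K := by positivity
  refine ⟨min (1 / 4) (min (1 / (2 * K)) (μ / (3 * Cp * K * Cm))), by positivity,
    min_le_left _ _, ?_⟩
  set δ₁ := min (1 / 4) (min (1 / (2 * K)) (μ / (3 * Cp * K * Cm))) with hδdef
  have hδ0 : 0 < δ₁ := by positivity
  have hδ4 : δ₁ ≤ 1 / 4 := min_le_left _ _
  have hδK : K * δ₁ ≤ 1 / 2 := by
    have : δ₁ ≤ 1 / (2 * K) := (min_le_right _ _).trans (min_le_left _ _)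
    calc K * δ₁ ≤ K * (1 / (2 * K)) := by gcongr
      _ = 1 / 2 := by field_simp
  have hδC : Cp * (K * δ₁) * Cm ≤ μ / 3 := by
    have : δ₁ ≤ μ / (3 * Cp * K * Cm) := (min_le_right _ _).trans (min_le_right _ _)
    calc Cp * (K * δ₁) * Cm ≤ Cp * (K * (μ / (3 * Cp * K * Cm))) * Cm := by gcongr
      _ = μ / 3 := by field_simp
  intro q U h2 h3 hUm hU hF a' c C C₁ b A v hvm ha ha' hc hb hb0 hA hv hv'
  obtain ⟨hm, hm'⟩ := hCm' q h2.le h3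
  have hmC : ∫ z, maj q x z ≤ Cm := hm'.trans (le_max_left _ _)
  -- the integral over growing discs
  have hR : Tendsto (fun n => a' / b n) atTop atTop := by
    have h4 : Tendsto b atTop (𝓝[>] 0) :=
      tendsto_nhdsWithin_iff.mpr ⟨hb0, Eventually.of_forall hb⟩
    simpa only [div_eq_mul_inv, Function.comp_def] using
      (tendsto_inv_nhdsGT_zero.comp h4).const_mul_atTop ha
  have hlim : Tendsto (fun n => ∫ z in Metric.closedBall (0 : ℂ) (a' / b n),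
      Mq q (hh z) (x * xi z)) atTop (𝓝 (Th q x)) :=
    (aecover_closedBall hR).integral_tendsto_of_countably_generated hF
  have hq2 : 0 < q - 2 := by linarith
  have hμq : 0 < μ * (q - 2) / 3 := by positivity
  set I₂ := ∫ z in DD \ Metric.ball (0 : ℂ) a', bet z ^ 2 * |w0 z| ^ (-(3 / 4) : ℝ) with hI₂
  have hI₂0 : 0 ≤ I₂ := by
    refine integral_nonneg fun z => ?_
    simp only [Pi.zero_apply]
    positivity
  set ε : ℝ := μ / (3 * (Cb * (3 / 4 : ℝ) ^ (-(3 / 4) : ℝ) * (I₂ + 1))) with hε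
  have h34 : 0 < (3 / 4 : ℝ) ^ (-(3 / 4) : ℝ) := Real.rpow_pos_of_pos (by norm_num) _
  have hε0 : 0 < ε := by positivity
  filter_upwards [hlim.eventually (Metric.ball_mem_nhds _ hμq),
    pow_small (C₁ := C₁) h2 h3 hx hκ hc hb hb0 (fun n => ⟨(hA n).1, (hA n).2.2⟩) hε0] with n h4 h5
  have hbn := hb n
  have hAn := (hA n).2.2
  set k := (κ * b n ^ 4) ^ q with hk
  have hk0 : 0 < k := Real.rpow_pos_of_pos (by positivity) _
  set J := ∫ z in Metric.closedBall (0 : ℂ) (a' / b n), Mq q (hh z) (x * xi z) with hJ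
  have h6 : |(∫ z in DD, Mq q (U z) ((x * κ * b n ^ 4 / A n) * v n z)) - k * (b n ^ 2 * J)| ≤
      Cp * (q - 2) * (K * δ₁) * (k * (b n ^ 2 * ∫ z, maj q x z)) +
      Cb * (q - 2) * ((3 / 4 : ℝ) ^ (-(3 / 4) : ℝ) *
        ((x * κ * b n ^ 4 / A n) * |C₁|) ^ (q + 3 / 4)) * I₂ :=
    theta_one hx h2 h3 hCp0 hCb0 hCp hCb hC₀ h0 hδ0 hδ4 hδK hUm (hvm n) hU hF hm ha ha'
    hbn hAn (hv n) (hv' n)
  have h7 : |J - Th q x| ≤ μ * (q - 2) / 3 := by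
    rw [Real.dist_eq] at h4
    exact h4.le
  have h8 : Cp * (q - 2) * (K * δ₁) * (k * (b n ^ 2 * ∫ z, maj q x z)) ≤
      k * b n ^ 2 * (μ * (q - 2) / 3) := by
    calc Cp * (q - 2) * (K * δ₁) * (k * (b n ^ 2 * ∫ z, maj q x z))
        ≤ Cp * (q - 2) * (K * δ₁) * (k * (b n ^ 2 * Cm)) := by gcongr
      _ = k * b n ^ 2 * (q - 2) * (Cp * (K * δ₁) * Cm) := by ring
      _ ≤ k * b n ^ 2 * (q - 2) * (μ / 3) := by gcongr
      _ = _ := by ring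
  have h9 : Cb * (q - 2) * ((3 / 4 : ℝ) ^ (-(3 / 4) : ℝ) *
        ((x * κ * b n ^ 4 / A n) * |C₁|) ^ (q + 3 / 4)) * I₂ ≤ k * b n ^ 2 * (μ * (q - 2) / 3) := by
    calc Cb * (q - 2) * ((3 / 4 : ℝ) ^ (-(3 / 4) : ℝ) *
        ((x * κ * b n ^ 4 / A n) * |C₁|) ^ (q + 3 / 4)) * I₂
        ≤ Cb * (q - 2) * ((3 / 4 : ℝ) ^ (-(3 / 4) : ℝ) * (ε * (k * b n ^ 2))) * (I₂ + 1) := by
          gcongr
          linarith
      _ = k * b n ^ 2 * (μ * (q - 2) / 3) := by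
          rw [hε]; field_simp
  have h10 : |k * (b n ^ 2 * J) - k * b n ^ 2 * Th q x| ≤ k * b n ^ 2 * (μ * (q - 2) / 3) := by
    have : k * (b n ^ 2 * J) - k * b n ^ 2 * Th q x = k * b n ^ 2 * (J - Th q x) := by ring
    rw [this, abs_mul, abs_of_pos (by positivity)]
    gcongr
  have h11 := abs_sub_le
    (∫ z in DD, Mq q (U z) ((x * κ * b n ^ 4 / A n) * v n z)) (k * (b n ^ 2 * J))
    (k * b n ^ 2 * Th q x)
  have h12 : k * b n ^ 2 * (μ * (q - 2)) = k * b n ^ 2 * (μ * (q - 2) / 3) +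
      k * b n ^ 2 * (μ * (q - 2) / 3) + k * b n ^ 2 * (μ * (q - 2) / 3) := by ring
  rw [h12]
  linarith

end Pool.Agent.H49.LE
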